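import Pool.Agent.Helper8_HK.Stmt3

/-! Module ELM of squad HK: partial fractions over an algebraically closed field. -/

namespace Pool.Agent.HK.H23

open Polynomial

variable {C : Type} [Field C]

theorem pow_mem (T : Set C) (j : ℕ) : (fun z : C => z ^ j) ∈ Elm T :=
  Submodule.subset_span (Or.inl ⟨j, rfl⟩)

theorem inv_mem (T : Set C) (a : C) (ha : a ∈ T) (j : ℕ) :
    (fun z : C => ((z - a) ^ (j + 1))⁻¹) ∈ Elm T :=
  Submodule.subset_span (Or.inr ⟨a, ha, j, rfl⟩)

theorem poly_mem (T : Set C) (P : Polynomial C) : (fun z : C => P.eval z) ∈ Elm T := by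
  induction P using Polynomial.induction_on' with
  | add p q hp hq =>
    have := (Elm T).add_mem hp hq
    have h2 : ((fun z : C => p.eval z) + fun z : C => q.eval z) = fun z : C => (p + q).eval z := by
      funext z
      simp [Polynomial.eval_add]
    rwa [h2] at this
  | monomial n a =>
    have := (Elm T).smul_mem a (pow_mem T n)
    have h2 : (a • fun z : C => z ^ n) = fun z : C => (Polynomial.monomial n a).eval z := by
      funext z
      simp [Polynomial.eval_monomial]
    rwa [h2] at this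

/-- Multiplication of a power by `(z-b)⁻¹`. -/
theorem step_pow (S : Set C) (b : C) (hb : b ∉ S) (j : ℕ) :
    ∃ e' ∈ Elm Sᶜ, ∀ z ∈ S, z ^ j * (z - b)⁻¹ = e' z := by
  induction j with
  | zero =>
    refine ⟨_, inv_mem Sᶜ b hb 0, ?_⟩
    intro z _
    simp
  | succ j ih =>
    obtain ⟨e, he, hz⟩ := ih
    refine ⟨(fun z : C => z ^ j) + b • e, (Elm Sᶜ).add_mem (pow_mem Sᶜ j)
      ((Elm Sᶜ).smul_mem b he), ?_⟩
    intro z hzS
    have hne : z - b ≠ 0 := by
      intro h
      exact hb (by rw [← sub_eq_zero.mp h]; exact hzS)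
    have h1 := hz z hzS
    simp only [Pi.add_apply, Pi.smul_apply, smul_eq_mul]
    rw [← h1]
    field_simp
    ring

theorem step_inv (S : Set C) (b : C) (hb : b ∉ S) (a : C) (ha : a ∉ S) (j : ℕ) :
    ∃ e' ∈ Elm Sᶜ, ∀ z ∈ S, ((z - a) ^ (j + 1))⁻¹ * (z - b)⁻¹ = e' z := by
  by_cases hab : a = b
  · subst hab
    refine ⟨_, inv_mem Sᶜ a ha (j + 1), ?_⟩
    intro z _
    rw [← mul_inv, ← pow_succ]
  · have hab' : a - b ≠ 0 := sub_ne_zero.mpr hab
    induction j with
    | zero =>
      refine ⟨(a - b)⁻¹ • ((fun z : C => ((z - a) ^ (0 + 1))⁻¹) +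
        (-1 : C) • fun z : C => ((z - b) ^ (0 + 1))⁻¹), ?_, ?_⟩
      · exact (Elm Sᶜ).smul_mem _ ((Elm Sᶜ).add_mem (inv_mem Sᶜ a ha 0)
          ((Elm Sᶜ).smul_mem _ (inv_mem Sᶜ b hb 0)))
      · intro z hzS
        have hza : z - a ≠ 0 := by
          intro h
          exact ha (by rw [← sub_eq_zero.mp h]; exact hzS)
        have hzb : z - b ≠ 0 := by
          intro h
          exact hb (by rw [← sub_eq_zero.mp h]; exact hzS)
        simp only [Pi.add_apply, Pi.smul_apply, smul_eq_mul, zero_add, pow_one]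
        field_simp
        ring
    | succ j ih =>
      obtain ⟨e, he, hz⟩ := ih
      refine ⟨(a - b)⁻¹ • ((fun z : C => ((z - a) ^ (j + 1 + 1))⁻¹) + (-1 : C) • e), ?_, ?_⟩
      · exact (Elm Sᶜ).smul_mem _ ((Elm Sᶜ).add_mem (inv_mem Sᶜ a ha (j + 1))
          ((Elm Sᶜ).smul_mem _ he))
      · intro z hzS
        have hza : z - a ≠ 0 := by
          intro h
          exact ha (by rw [← sub_eq_zero.mp h]; exact hzS)
        have hzb : z - b ≠ 0 := by
          intro h
          exact hb (by rw [← sub_eq_zero.mp h]; exact hzS)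
        have h1 := hz z hzS
        simp only [Pi.add_apply, Pi.smul_apply, smul_eq_mul]
        rw [← h1]
        have hzp : (z - a) ^ (j + 1) ≠ 0 := pow_ne_zero _ hza
        rw [pow_succ (z - a) (j + 1)]
        generalize (z - a) ^ (j + 1) = w at hzp
        field_simp
        ring

theorem step (S : Set C) (e : C → C) (he : e ∈ Elm Sᶜ) (b : C) (hb : b ∉ S) :
    ∃ e' ∈ Elm Sᶜ, ∀ z ∈ S, e z * (z - b)⁻¹ = e' z := by
  unfold Elm at he
  induction he using Submodule.span_induction with
  | mem x hx =>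
    rcases hx with ⟨j, rfl⟩ | ⟨a, ha, j, rfl⟩
    · exact step_pow S b hb j
    · exact step_inv S b hb a ha j
  | zero =>
    refine ⟨0, (Elm Sᶜ).zero_mem, ?_⟩
    intro z _
    simp
  | add x y _ _ hx hy =>
    obtain ⟨e1, h1, hz1⟩ := hx
    obtain ⟨e2, h2, hz2⟩ := hy
    refine ⟨e1 + e2, (Elm Sᶜ).add_mem h1 h2, ?_⟩
    intro z hz
    rw [Pi.add_apply, Pi.add_apply, add_mul, hz1 z hz, hz2 z hz]
  | smul c x _ hx =>
    obtain ⟨e1, h1, hz1⟩ := hx
    refine ⟨c • e1, (Elm Sᶜ).smul_mem c h1, ?_⟩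
    intro z hz
    rw [Pi.smul_apply, Pi.smul_apply, smul_eq_mul, smul_eq_mul, mul_assoc, hz1 z hz]

theorem prodRoots (S : Set C) (m : Multiset C) (hm : ∀ r ∈ m, r ∉ S) (P : Polynomial C) :
    ∃ e ∈ Elm Sᶜ, ∀ z ∈ S, P.eval z * ((m.map (fun r => z - r)).prod)⁻¹ = e z := by
  induction m using Multiset.induction_on with
  | empty =>
    refine ⟨_, poly_mem Sᶜ P, ?_⟩
    intro z _
    simp
  | cons a m ih =>
    obtain ⟨e, he, hz⟩ := ih (fun r hr => hm r (Multiset.mem_cons_of_mem hr))
    obtain ⟨e', he', hz'⟩ := step S e he a (hm a (Multiset.mem_cons_self a m))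
    refine ⟨e', he', ?_⟩
    intro z hzS
    rw [Multiset.map_cons, Multiset.prod_cons, ← hz' z hzS, ← hz z hzS, mul_inv]
    ring

theorem elm : ELMStmt := by
  intro C _ _ S
  refine ⟨?_, ?_, ?_⟩
  · intro P Q hQ
    by_cases hQ0 : Q = 0
    · refine ⟨0, (Elm Sᶜ).zero_mem, ?_⟩
      intro z hz
      exact absurd (by rw [hQ0]; simp) (hQ z hz)
    · have hroots : ∀ r ∈ Q.roots, r ∉ S := by
        intro r hr hrS
        exact hQ r hrS ((Polynomial.mem_roots hQ0).mp hr)
      obtain ⟨e, he, hz⟩ := prodRoots S Q.roots hroots (Polynomial.C (Q.leadingCoeff)⁻¹ * P)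
      refine ⟨e, he, ?_⟩
      intro z hzS
      rw [← hz z hzS]
      have hfac : Q.eval z = Q.leadingCoeff * (Q.roots.map (fun r => z - r)).prod := by
        have h1 := (IsAlgClosed.splits Q).eval_eq_prod_roots z
        rw [h1]
      rw [hfac, Polynomial.eval_mul, Polynomial.eval_C, div_eq_mul_inv, mul_inv]
      ring
  · intro e he
    unfold Elm at he
    induction he using Submodule.span_induction with
    | mem x hx =>
      rcases hx with ⟨j, rfl⟩ | ⟨a, ha, j, rfl⟩
      · refine ⟨X ^ j, 1, ?_, ?_⟩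
        · intro z _
          simp
        · intro z _
          simp
      · refine ⟨1, (X - Polynomial.C a) ^ (j + 1), ?_, ?_⟩
        · intro z hz
          rw [Polynomial.eval_pow, Polynomial.eval_sub, Polynomial.eval_X, Polynomial.eval_C]
          apply pow_ne_zero
          intro h
          exact ha (by rw [← sub_eq_zero.mp h]; exact hz)
        · intro z hz
          rw [Polynomial.eval_pow, Polynomial.eval_sub, Polynomial.eval_X, Polynomial.eval_C,
            Polynomial.eval_one, one_div]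
    | zero =>
      refine ⟨0, 1, ?_, ?_⟩
      · intro z _
        simp
      · intro z _
        simp
    | add x y _ _ hx hy =>
      obtain ⟨P1, Q1, h1, hz1⟩ := hx
      obtain ⟨P2, Q2, h2, hz2⟩ := hy
      refine ⟨P1 * Q2 + P2 * Q1, Q1 * Q2, ?_, ?_⟩
      · intro z hz
        rw [Polynomial.eval_mul]
        exact mul_ne_zero (h1 z hz) (h2 z hz)
      · intro z hz
        rw [Pi.add_apply, ← hz1 z hz, ← hz2 z hz]
        have a1 := h1 z hz
        have a2 := h2 z hz
        simp only [Polynomial.eval_mul, Polynomial.eval_add]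
        field_simp
    | smul c x _ hx =>
      obtain ⟨P1, Q1, h1, hz1⟩ := hx
      refine ⟨Polynomial.C c * P1, Q1, h1, ?_⟩
      intro z hz
      rw [Pi.smul_apply, ← hz1 z hz, smul_eq_mul, Polynomial.eval_mul, Polynomial.eval_C,
        mul_div_assoc]
  · intro e he b hb
    exact step S e he b hb

end Pool.Agent.HK.H23
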