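import Pool.Agent.Helper8_HK.Stmt2

/-! Squad HK, module HRM: the harmonic relation as a relation between `P` and its reversal. -/

namespace Pool.Agent.HK.H23

open MvPolynomial

theorem evL_add {p r : ℕ} {L k : Type} [Field L] [Field k] (σ : L →+* k)
    (P Q : MvPolynomial (Ix r) k) (x : L) : evL p σ (P + Q) x = evL p σ P x + evL p σ Q x := by
  unfold evL; rw [map_add]

theorem evL_mul {p r : ℕ} {L k : Type} [Field L] [Field k] (σ : L →+* k)
    (P Q : MvPolynomial (Ix r) k) (x : L) : evL p σ (P * Q) x = evL p σ P x * evL p σ Q x := by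
  unfold evL; rw [map_mul]

theorem evL_C {p r : ℕ} {L k : Type} [Field L] [Field k] (σ : L →+* k)
    (a : k) (x : L) : evL p σ (C a : MvPolynomial (Ix r) k) x = a := by
  unfold evL; rw [eval_C]

theorem evL_sum {p r : ℕ} {L k : Type} [Field L] [Field k] (σ : L →+* k) {ι : Type}
    (s : Finset ι) (f : ι → MvPolynomial (Ix r) k) (x : L) :
    evL p σ (∑ i ∈ s, f i) x = ∑ i ∈ s, evL p σ (f i) x := by
  unfold evL; rw [map_sum]

theorem redu_sum {p r : ℕ} {k : Type} [Field k] {ι : Type}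
    (s : Finset ι) (f : ι → MvPolynomial (Ix r) k) (h : ∀ i ∈ s, Redu p (f i)) :
    Redu p (∑ i ∈ s, f i) := by
  classical
  intro α hα j
  rw [mem_support_iff, coeff_sum] at hα
  obtain ⟨i, hi, hne⟩ := Finset.exists_ne_zero_of_sum_ne_zero hα
  exact h i hi α (mem_support_iff.mpr hne) j

/-- Power sums over the image of a finite field. -/
theorem pow_sum {F k : Type} [Field F] [Field k] [Fintype F] (φ : F →+* k)
    (hq : ((Fintype.card F : ℕ) : k) = 0) (e : ℕ) :
    ∑ c : F, (φ c) ^ e = if e ≠ 0 ∧ (Fintype.card F - 1) ∣ e then -1 else 0 := by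
  classical
  by_cases he : e = 0
  · subst he
    simp [hq]
  · have h1 : ∑ c : F, (φ c) ^ e = φ (∑ c : F, c ^ e) := by
      rw [map_sum]
      exact Finset.sum_congr rfl (fun c _ => (map_pow φ c e).symm)
    have h2 : ∑ c : F, c ^ e = ∑ x : Fˣ, ((x ^ e : Fˣ) : F) := by
      have h3 : ∑ c : F, c ^ e = (0 : F) ^ e + ∑ x : {x : F // x ≠ 0}, (x : F) ^ e := by
        rw [← Finset.sum_filter_add_sum_filter_not Finset.univ (fun x : F => x = 0)]
        congr 1
        · rw [Finset.filter_eq' Finset.univ (0 : F)]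
          simp
        · exact (Finset.sum_subtype _ (fun x => by simp) _)
      rw [h3, zero_pow he, zero_add]
      refine (Fintype.sum_equiv unitsEquivNeZero _ _ (fun x => ?_)).symm
      simp
    have h4 := FiniteField.sum_pow_units F e
    simp only [Units.val_pow_eq_pow_val] at h2
    rw [h1, h2, h4]
    by_cases hd : (Fintype.card F - 1) ∣ e
    · rw [if_pos hd, if_pos ⟨he, hd⟩, map_neg, map_one]
    · rw [if_neg hd, if_neg (fun h => hd h.2), map_zero]

theorem hrm (hREV : REVStmt) (hTAY : TAYStmt) (hTRL : TRLStmt) (hREP : REPStmt) : HRMStmt := by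
  classical
  intro p r _ _ F L k _ _ _ _ _ _ _ hF hL σ P hP h0 hrel
  have hpp : p.Prime := Fact.out
  have hq0 : ((Fintype.card F : ℕ) : k) = 0 := by
    rw [hF, Nat.cast_pow, CharP.cast_eq_zero, zero_pow (NeZero.ne r)]
  -- the total sum vanishes
  have hsum : ∑ x : L, evL p σ P x = 0 := by
    have h1 : ∀ c : F, ∑ x : L, evL p σ P ((x + algebraMap F L c)⁻¹) = ∑ x : L, evL p σ P x := by
      intro c
      rw [Fintype.sum_equiv (Equiv.addRight (algebraMap F L c))
        (fun x => evL p σ P ((x + algebraMap F L c)⁻¹)) (fun y => evL p σ P y⁻¹)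
        (fun x => by simp)]
      exact Fintype.sum_equiv (Equiv.inv L) (fun y => evL p σ P y⁻¹) (fun y => evL p σ P y)
        (fun x => by simp)
    have h2 : ∑ x : L, (evL p σ P x + ∑ c : F, evL p σ P ((x + algebraMap F L c)⁻¹)) = 0 :=
      Finset.sum_eq_zero (fun x _ => hrel x)
    rw [Finset.sum_add_distrib, Finset.sum_comm, Finset.sum_congr rfl (fun c _ => h1 c),
      Finset.sum_const, Finset.card_univ, nsmul_eq_mul, hq0, zero_mul, add_zero] at h2
    exact h2
  obtain ⟨hR1, hR2, hR3⟩ := hREV p r L k hL σ P hP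
  have hrev := hR3 h0 hsum
  obtain ⟨hT1, hT2, hT3, hT4, hT5, hT6, hT7, hT8⟩ := hTAY r k
  set Q : MvPolynomial (Ix r) k := revP p P with hQ
  refine (hREP p r L k hL σ).2 P _ hP (redu_sum _ _ (fun κ _ => hT6 p κ Q hR1)) (fun x => ?_)
  rw [evL_sum]
  have hx : evL p σ P x = - ∑ c : F, evL p σ Q (x + algebraMap F L c) := by
    have h1 := hrel x
    rw [Finset.sum_congr rfl (fun c _ => (hrev (x + algebraMap F L c)).symm)] at h1
    exact eq_neg_of_add_eq_zero_left h1
  have hexp : ∀ c : F, evL p σ Q (x + algebraMap F L c) =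
      ∑ κ ∈ (tay Q).support, (σ (algebraMap F L c)) ^ (∑ s : ZMod r, κ s * p ^ s.val) *
        evL p σ (DD κ Q) x := by
    intro c
    rw [hTRL p r F L k hF σ Q c x, hT1 (fun s => (σ (algebraMap F L c)) ^ (p ^ s.val)) Q, evL_sum]
    refine Finset.sum_congr rfl (fun κ _ => ?_)
    rw [evL_mul, evL_C]
    congr 1
    rw [← Finset.prod_pow_eq_pow_sum]
    refine Finset.prod_congr rfl (fun s _ => ?_)
    rw [← pow_mul, Nat.mul_comm]
  rw [hx, Finset.sum_congr rfl (fun c _ => hexp c), Finset.sum_comm,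
    Finset.sum_congr rfl (fun κ _ => (Finset.sum_mul _ _ _).symm), ← Finset.sum_neg_distrib,
    Finset.sum_filter]
  refine Finset.sum_congr rfl (fun κ _ => ?_)
  have hps := pow_sum (σ.comp (algebraMap F L)) hq0 (∑ s : ZMod r, κ s * p ^ s.val)
  simp only [RingHom.comp_apply] at hps
  rw [hps, hF]
  have hiff : (∑ s : ZMod r, κ s * p ^ s.val) ≠ 0 ↔ κ ≠ 0 := by
    rw [not_iff_not]
    constructor
    · intro h
      ext s
      have h1 := (Finset.sum_eq_zero_iff.mp h) s (Finset.mem_univ s)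
      have h2 : p ^ s.val ≠ 0 := pow_ne_zero _ hpp.ne_zero
      rcases Nat.mul_eq_zero.mp h1 with h3 | h3
      · exact h3
      · exact absurd h3 h2
    · intro h
      rw [h]; simp
  by_cases hc : κ ≠ 0 ∧ (p ^ r - 1) ∣ ∑ s : ZMod r, κ s * p ^ s.val
  · rw [if_pos hc, if_pos ⟨hiff.mpr hc.1, hc.2⟩]
    ring
  · rw [if_neg hc, if_neg (fun h => hc ⟨hiff.mp h.1, h.2⟩)]
    ring

end Pool.Agent.HK.H23
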