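import Pool.Agent.Helper8_HK.Stmt2

/-! Squad HK, module LAP: the linear algebra theorem in characteristic `p`. -/

namespace Pool.Agent.HK.H23

open MvPolynomial

theorem lap_closed (hREP : REPStmt) (hCFX : CFXStmt) (hTAY : TAYStmt) (hTRL : TRLStmt)
    (hINV : INVStmt) (hHRM : HRMStmt) (hTUP : TUPStmt) (hHYP : HYPStmt) (hKEY : KEYStmt)
    (p r : ℕ) [Fact p.Prime] [NeZero r] (F L k : Type) [Field F] [Field L] [Field k]
    [Fintype F] [Fintype L] [DecidableEq F] [Algebra F L] [CharP k p]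
    (hF : Fintype.card F = p ^ r) (h4 : Module.finrank F L = 4) (σ : L →+* k)
    (τ : L →ₗ[F] F) (hτ : τ ≠ 0) (E : L → k)
    (hE1 : ∀ (a b : F) (x : L), a ≠ 0 → E (algebraMap F L a * x + algebraMap F L b) = E x)
    (hE2 : ∀ x : L, E x + ∑ c : F, E ((x + algebraMap F L c)⁻¹) = 0)
    (hE3 : E 0 = 0)
    (hE4 : ∀ M : L, M ≠ 0 → ∑ κ : L, (if τ (κ * M) = 1 then E κ⁻¹ else 0) = 0) :
    ∀ x, E x = 0 := by
  classical
  have hL : Fintype.card L = p ^ (4 * r) := by
    have := Module.card_eq_pow_finrank (K := F) (V := L)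
    rw [h4, hF] at this
    rw [this, ← pow_mul, Nat.mul_comm]
  obtain ⟨⟨P, hP, hPE⟩, huniq⟩ : (∃ P : MvPolynomial (Ix r) k, Redu p P ∧
      ∀ x, evL p σ P x = E x) ∧ (∀ P Q : MvPolynomial (Ix r) k, Redu p P → Redu p Q →
    (∀ x, evL p σ P x = evL p σ Q x) → P = Q) :=
    ⟨(hREP p r L k hL σ).1 E, (hREP p r L k hL σ).2⟩
  have h0 : coeff 0 P = 0 := by
    rw [(hCFX p r L k hL σ P hP).1, hPE, hE3]
  have hinv : ∀ (a : F) (x : L), a ≠ 0 →
      evL p σ P (algebraMap F L a * x) = evL p σ P x := by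
    intro a x ha
    have := hE1 a 0 x ha
    rw [map_zero, add_zero] at this
    rw [hPE, hPE, this]
  have hsup := hINV p r F L k hF hL σ P hP hinv
  have hrel := hHRM p r F L k hF hL σ P hP h0 (by
    intro x
    simp only [hPE]
    exact hE2 x)
  obtain ⟨hT, hT2⟩ := hTUP p r k P hP h0 hsup hrel
  have hhyp := hHYP p r F L k hF h4 σ τ hτ P hP h0 hinv (by
    intro M hM
    simp only [hPE]
    exact hE4 M hM)
  have htr : MvPolynomial.aeval (fun j : Ix r => X j + 1) P = P := by
    have h1 : (MvPolynomial.aeval (fun j : Ix r => X j + 1) P : MvPolynomial (Ix r) k) =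
        MvPolynomial.aeval
          (fun j : Ix r => X j + C ((fun s : ZMod r => (σ (algebraMap F L 1)) ^ (p ^ s.val)) j.2)) P := by
      congr 2
      funext j
      simp
    rw [h1]
    obtain ⟨-, -, -, -, -, -, hT7, -⟩ := hTAY r k
    have h7 := hT7 p (fun s : ZMod r => (σ (algebraMap F L 1)) ^ (p ^ s.val)) P hP
    refine huniq _ P h7 hP (fun x => ?_)
    have h2 := hTRL p r F L k hF σ P 1 x
    rw [← h2, hPE, hPE]
    have := hE1 1 1 x one_ne_zero
    rw [map_one, one_mul] at this
    rw [map_one]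
    exact this
  have hP0 : P = 0 := hKEY p r k P hP hT hhyp (hT2 hhyp) htr
  intro x
  rw [← hPE, hP0]
  unfold evL
  rw [map_zero]

theorem lap (hREP : REPStmt) (hCFX : CFXStmt) (hTAY : TAYStmt) (hTRL : TRLStmt)
    (hINV : INVStmt) (hHRM : HRMStmt) (hTUP : TUPStmt) (hHYP : HYPStmt) (hKEY : KEYStmt) :
    LAPStmt := by
  classical
  intro F L k _ _ _ _ _ _ _ h4 τ hτ hq E hE1 hE2 hE3 hE4
  obtain ⟨p, hchar⟩ := CharP.exists F
  have hp : p.Prime := CharP.char_is_prime F p
  have : Fact p.Prime := ⟨hp⟩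
  obtain ⟨r, _, hF⟩ := FiniteField.card F p
  have : NeZero (r : ℕ) := ⟨r.ne_zero⟩
  have hpk : (p : k) = 0 := by
    rw [hF, Nat.cast_pow] at hq
    exact pow_eq_zero_iff (NeZero.ne _) |>.mp hq
  obtain ⟨p', hchar'⟩ := CharP.exists k
  have hpp' : p' = p := by
    have h1 : p' ∣ p := (CharP.cast_eq_zero_iff k p' p).mp hpk
    rcases (Nat.dvd_prime hp).mp h1 with h2 | h2
    · exact absurd h2 (CharP.char_ne_one k p')
    · exact h2
  subst hpp'
  have hLp : CharP L p' := charP_of_injective_algebraMap (algebraMap F L).injective p'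
  have hKp : CharP (AlgebraicClosure k) p' :=
    charP_of_injective_algebraMap (algebraMap k (AlgebraicClosure k)).injective p'
  let _ : Algebra (ZMod p') L := ZMod.algebra L p'
  let _ : Algebra (ZMod p') (AlgebraicClosure k) := ZMod.algebra _ p'
  have : Algebra.IsAlgebraic (ZMod p') L := Algebra.IsAlgebraic.of_finite _ _
  let σ : L →ₐ[ZMod p'] AlgebraicClosure k := IsAlgClosed.lift
  have hmain := lap_closed hREP hCFX hTAY hTRL hINV hHRM hTUP hHYP hKEY p' r F L
    (AlgebraicClosure k) hF h4 σ.toRingHom τ hτ (fun x => algebraMap k (AlgebraicClosure k) (E x))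
    (fun a b x ha => by simp only [hE1 a b x ha])
    (fun x => by
      have := congrArg (algebraMap k (AlgebraicClosure k)) (hE2 x)
      rw [map_add, map_sum, map_zero] at this
      exact this)
    (by simp only [hE3, map_zero])
    (fun M hM => by
      have := congrArg (algebraMap k (AlgebraicClosure k)) (hE4 M hM)
      rw [map_sum, map_zero] at this
      refine Eq.trans (Finset.sum_congr rfl (fun κ _ => ?_)) this
      by_cases h : τ (κ * M) = 1
      · simp only [h, if_true]
      · simp only [h, if_false, map_zero])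
  intro x
  have h1 := hmain x
  exact (map_eq_zero_iff _ (algebraMap k (AlgebraicClosure k)).injective).mp h1

end Pool.Agent.HK.H23
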